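import Mathlib
import Pool.Agent.Helper61.FR.Defs
import Pool.Agent.Helper61.FR.St.P1
import Pool.Agent.Helper61.FR.St.P9
import Pool.Agent.Helper61.FR.St.P10

/-!
# The single character version of rate rigidity

Let `μ` be invariant under `×2` and `×3`, without atoms, and let the mean of the character of an
odd frequency `m` be different from zero.  Then the probabilities that the average of this
character over the first `N` points of a `×3`-orbit deviates from its mean are not summable over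
`N`.  Indeed translation by `1 / 2` changes the sign of these averages, so one of the two cells
over a given one is atypical, and summability would give an atom.
-/

set_option autoImplicit false

open MeasureTheory Finset Filter

namespace Helper75.FR1

open Pool.Agent.Helper61.FR

/-- overlap of the distribution at scale `1 / (2 D)` with its translate by `1 / 2` -/
noncomputable def ov (p : ℕ → ℕ → ℝ) (D : ℕ) : ℝ :=
  ∑ a ∈ range D, min (p (D * 2) a) (p (D * 2) (a + D))

/-- truncated mass -/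
noncomputable def Sm (p : ℕ → ℕ → ℝ) (t : ℝ) (D : ℕ) : ℝ := ∑ a ∈ range D, min (p D a) t

lemma min_add_min (u v t : ℝ) (hu : 0 ≤ u) (hv : 0 ≤ v) :
    min u t + min v t ≤ min (u + v) t + min u v := by
  rcases le_total u v with h | h
  · have h1 : min u v = u := min_eq_left h
    have h2 : min v t ≤ min (u + v) t := min_le_min_right _ (by linarith)
    have h3 : min u t ≤ u := min_le_left _ _
    rw [h1]; linarith
  · have h1 : min u v = v := min_eq_right h
    have h2 : min u t ≤ min (u + v) t := min_le_min_right _ (by linarith)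
    have h3 : min v t ≤ v := min_le_left _ _
    rw [h1]; linarith

lemma sum_double (f : ℕ → ℝ) (D : ℕ) :
    ∑ a ∈ range (D * 2), f a = ∑ a ∈ range D, (f a + f (a + D)) := by
  rw [mul_two, Finset.sum_range_add, Finset.sum_add_distrib]
  congr 1
  refine Finset.sum_congr rfl fun a _ => ?_
  rw [add_comm]

lemma Sm_step {p : ℕ → ℕ → ℝ} (hp : Profile p) (D : ℕ) (hD : 1 ≤ D) (t : ℝ) :
    Sm p t (D * 2) ≤ Sm p t D + ov p D := by
  unfold Sm ov
  rw [sum_double, ← Finset.sum_add_distrib]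
  refine Finset.sum_le_sum fun a ha => ?_
  have h1 := hp.inv_eq D 1 a hD (Finset.mem_range.1 ha)
  have h2 : p D a = p (D * 2) a + p (D * 2) (a + D) := by
    rw [h1]
    simp [Finset.sum_range_succ]
  rw [h2]
  exact min_add_min _ _ _ (hp.nonneg _ _) (hp.nonneg _ _)

lemma e_half (k : ℤ) (hk : Odd k) (y : ℝ) : e (y + k / 2) = - e y := by
  obtain ⟨j, rfl⟩ := hk
  have h1 : (y + ((2 * j + 1 : ℤ) : ℝ) / 2) = y + ((j : ℝ) + 1 / 2) := by
    push_cast; ring
  rw [h1, e_add, e_add, e_int]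
  have h2 : e (1 / 2 : ℝ) = -1 := by
    unfold e
    rw [show (2 * (Real.pi : ℂ) * ((1 / 2 : ℝ) : ℂ) * Complex.I) = Real.pi * Complex.I by
      push_cast; ring]
    exact Complex.exp_pi_mul_I
  rw [h2]; ring

/-- the average over the first `N` points of the `×3`-orbit -/
lemma avg_add (m N D : ℕ) (hm : Odd m) (hD : 1 ≤ D) (x x' : ℝ)
    (hx : |x' - (x + 1 / 2)| ≤ 1 / (2 * D)) :
    ‖avg 1 N (fun y => e (m * y)) x' + avg 1 N (fun y => e (m * y)) x‖ ≤
      Real.pi * m * 3 ^ N / D := by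
  unfold avg
  have hD0 : (0 : ℝ) < D := by exact_mod_cast hD
  simp only [Finset.range_one, Finset.sum_singleton, pow_zero, one_mul, Nat.cast_one]
  rw [← add_div, ← Finset.sum_add_distrib, norm_div]
  rcases Nat.eq_zero_or_pos N with rfl | hN
  · simp
    positivity
  have hN0 : (0 : ℝ) < N := by exact_mod_cast hN
  rw [Complex.norm_natCast, div_le_iff₀ hN0]
  refine (norm_sum_le _ _).trans ?_
  have h1 : ∀ k ∈ range N, ‖e (m * (3 ^ k * x')) + e (m * (3 ^ k * x))‖ ≤
      Real.pi * m * 3 ^ N / D := by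
    intro k hk
    have hk' : k < N := Finset.mem_range.1 hk
    have h2 : e (m * (3 ^ k * x)) = - e (m * (3 ^ k * (x + 1 / 2))) := by
      have h3 : (m : ℝ) * (3 ^ k * (x + 1 / 2)) =
          m * (3 ^ k * x) + ((m * 3 ^ k : ℕ) : ℤ) / 2 := by push_cast; ring
      rw [h3, e_half]
      · ring
      · have h4 : Odd (m * 3 ^ k) := hm.mul (Odd.pow (by decide))
        exact_mod_cast h4
    rw [h2, ← sub_eq_add_neg]
    refine (norm_e_sub_le _ _).trans ?_
    have h5 : (m : ℝ) * (3 ^ k * x') - m * (3 ^ k * (x + 1 / 2)) =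
        m * 3 ^ k * (x' - (x + 1 / 2)) := by ring
    rw [h5, abs_mul, abs_of_nonneg (by positivity : (0 : ℝ) ≤ m * 3 ^ k)]
    have h6 : (3 : ℝ) ^ k ≤ 3 ^ N := pow_le_pow_right₀ (by norm_num) hk'.le
    have hm0 : (0 : ℝ) ≤ m := Nat.cast_nonneg m
    calc 2 * Real.pi * (m * 3 ^ k * |x' - (x + 1 / 2)|)
        ≤ 2 * Real.pi * (m * 3 ^ N * (1 / (2 * D))) := by
          have := Real.pi_pos.le
          gcongr
      _ = Real.pi * m * 3 ^ N / D := by field_simp
  calc ∑ k ∈ range N, ‖e (m * (3 ^ k * x')) + e (m * (3 ^ k * x))‖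
      ≤ ∑ _k ∈ range N, Real.pi * m * 3 ^ N / D := Finset.sum_le_sum h1
    _ = Real.pi * m * 3 ^ N / D * N := by
        rw [Finset.sum_const, Finset.card_range, nsmul_eq_mul, mul_comm]

lemma floor_bounds {D a : ℕ} {x : ℝ} (hx : 0 ≤ x) (h : ⌊(D : ℝ) * x⌋₊ = a) :
    (a : ℝ) ≤ D * x ∧ (D : ℝ) * x < a + 1 := by
  have h0 : (0 : ℝ) ≤ D * x := mul_nonneg (Nat.cast_nonneg D) hx
  rw [← h]
  exact ⟨Nat.floor_le h0, Nat.lt_floor_add_one _⟩

/-- the deviation set -/
def dv (μ : Measure ℝ) (m : ℕ) (c : ℝ) (N : ℕ) : Set ℝ :=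
  {x | c * ‖∫ y, e (m * y) ∂μ‖ ≤
    ‖avg 1 N (fun y => e (m * y)) x - ∫ y, e (m * y) ∂μ‖}

lemma measurableSet_dv (μ : Measure ℝ) (m : ℕ) (c : ℝ) (N : ℕ) : MeasurableSet (dv μ m c N) :=
  measurableSet_le measurable_const ((measurable_avg 1 N m).sub_const _).norm

lemma ov_le {μ : Measure ℝ} (h : Inv23 μ) (m N D : ℕ) (hm : Odd m) (hD : 1 ≤ D) (c : ℝ)
    (hc : Real.pi * m * 3 ^ N / D ≤ 2 * (1 - c) * ‖∫ y, e (m * y) ∂μ‖) :
    ov (pr μ) D ≤ μ.real (dv μ m c N) := by
  have := h.prob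
  set φ := ∫ y, e (m * y) ∂μ with hφ
  have hD0 : (0 : ℝ) < D := by exact_mod_cast hD
  -- one of the two cells is contained in the deviation set
  have key : ∀ a : ℕ, (∀ x, 0 ≤ x → ⌊((D * 2 : ℕ) : ℝ) * x⌋₊ = a → x ∈ dv μ m c N) ∨
      (∀ x, 0 ≤ x → ⌊((D * 2 : ℕ) : ℝ) * x⌋₊ = a + D → x ∈ dv μ m c N) := by
    intro a
    by_contra hcon
    push Not at hcon
    obtain ⟨⟨x, hx0, hx, hxd⟩, ⟨x', hx0', hx', hxd'⟩⟩ := hcon
    have b1 := floor_bounds hx0 hx
    have b2 := floor_bounds hx0' hx'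
    push_cast at b1 b2
    have h1 : |x' - (x + 1 / 2)| ≤ 1 / (2 * D) := by
      rw [abs_le]
      have e1 : (1 / (2 * D) : ℝ) * (D * 2) = 1 := by field_simp
      constructor
      · have : -(1 / (2 * D) : ℝ) * (D * 2) ≤ (x' - (x + 1 / 2)) * (D * 2) := by
          rw [neg_mul, e1]; nlinarith [b1.1, b1.2, b2.1, b2.2]
        exact le_of_mul_le_mul_right this (by positivity)
      · have : (x' - (x + 1 / 2)) * (D * 2) ≤ (1 / (2 * D) : ℝ) * (D * 2) := by
          rw [e1]; nlinarith [b1.1, b1.2, b2.1, b2.2]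
        exact le_of_mul_le_mul_right this (by positivity)
    have h2 := avg_add m N D hm hD x x' h1
    simp only [dv, Set.mem_ofPred_eq, not_le] at hxd hxd'
    rw [← hφ] at hxd hxd'
    have h3 : ‖(2 : ℂ) * φ‖ ≤ ‖avg 1 N (fun y => e (m * y)) x' + avg 1 N (fun y => e (m * y)) x‖ +
        ‖avg 1 N (fun y => e (m * y)) x - φ‖ + ‖avg 1 N (fun y => e (m * y)) x' - φ‖ := by
      have h4 : (2 : ℂ) * φ = (avg 1 N (fun y => e (m * y)) x' + avg 1 N (fun y => e (m * y)) x) -
          (avg 1 N (fun y => e (m * y)) x - φ) - (avg 1 N (fun y => e (m * y)) x' - φ) := by ring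
      rw [h4]
      refine (norm_sub_le _ _).trans ?_
      gcongr
      exact norm_sub_le _ _
    rw [norm_mul, Complex.norm_two] at h3
    nlinarith [h2.trans hc]
  -- the masses inside the deviation set
  set q : ℕ → ℝ := fun a => μ.real ({x : ℝ | ⌊((D * 2 : ℕ) : ℝ) * x⌋₊ = a} ∩ dv μ m c N) with hq
  have hq0 : ∀ a, 0 ≤ q a := fun a => measureReal_nonneg
  have hpq : ∀ a : ℕ, (∀ x, 0 ≤ x → ⌊((D * 2 : ℕ) : ℝ) * x⌋₊ = a → x ∈ dv μ m c N) →
      pr μ (D * 2) a ≤ q a := by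
    intro a ha
    unfold pr
    simp only [hq]
    rw [measureReal_def, measureReal_def]
    refine ENNReal.toReal_mono (measure_ne_top _ _) (measure_mono_ae ?_)
    filter_upwards [h.supp] with x hx hxa
    exact ⟨hxa, ha x hx.1 hxa⟩
  have h1 : ov (pr μ) D ≤ ∑ a ∈ range D, (q a + q (a + D)) := by
    unfold ov
    refine Finset.sum_le_sum fun a _ => ?_
    rcases key a with h | h
    · exact (min_le_left _ _).trans ((hpq a h).trans (by linarith [hq0 (a + D)]))
    · exact (min_le_right _ _).trans ((hpq (a + D) h).trans (by linarith [hq0 a]))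
  refine h1.trans ?_
  rw [← sum_double]
  rw [hq, ← measureReal_biUnion_finset]
  · refine measureReal_mono ?_
    intro x hx
    simp only [Set.mem_iUnion] at hx
    obtain ⟨a, _, hx⟩ := hx
    exact hx.2
  · intro a _ b _ hab
    refine Set.disjoint_left.2 fun x hx hx' => hab ?_
    exact hx.1.symm.trans hx'.1
  · intro a _
    exact (measurableSet_floor_eq _ _).inter (measurableSet_dv _ _ _ _)

lemma exists_small {μ : Measure ℝ} (h : Inv23 μ) (h0 : ∀ x, μ {x} = 0) (t : ℝ) (ht : 0 < t)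
    (N₀ : ℕ) : ∃ N, N₀ ≤ N ∧ ∀ a < 4 ^ N, pr μ (4 ^ N) a ≤ t := by
  have := h.prob
  by_contra hcon
  push Not at hcon
  refine false_of_arcs h0 ⟨t, ht, fun K => ?_⟩
  obtain ⟨a, _, ha⟩ := hcon (max N₀ K) (le_max_left _ _)
  set N := max N₀ K
  refine ⟨(a : ℝ) / (4 ^ N : ℕ), ha.le.trans ?_⟩
  unfold pr
  rw [measureReal_def, measureReal_def]
  refine ENNReal.toReal_mono (measure_ne_top _ _) (measure_mono_ae ?_)
  filter_upwards [h.supp] with x hx hxa
  refine ⟨0, ?_⟩
  have b := floor_bounds hx.1 hxa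
  have hD0 : (0 : ℝ) < ((4 ^ N : ℕ) : ℝ) := by positivity
  rw [Int.cast_zero, sub_zero]
  have h1 : x - (a : ℝ) / (4 ^ N : ℕ) = (((4 ^ N : ℕ) : ℝ) * x - a) / (4 ^ N : ℕ) := by
    field_simp
  rw [h1, abs_div, abs_of_pos hD0, div_le_iff₀ hD0, abs_le]
  have h2 : (1 : ℝ) ≤ (1 / 2) ^ K * ((4 ^ N : ℕ) : ℝ) := by
    have h3 : (2 : ℝ) ^ K ≤ 4 ^ N :=
      (pow_le_pow_left₀ (by norm_num) (by norm_num) K).trans
        (pow_le_pow_right₀ (by norm_num) (le_max_right _ _))
    rw [one_div, inv_pow, ← div_eq_inv_mul, le_div_iff₀ (by positivity), one_mul]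
    push_cast
    exact h3
  constructor <;> linarith [b.1, b.2]

/-- **Single character version, odd frequency.** -/
theorem not_summable_odd {μ : Measure ℝ} (h : Inv23 μ) (h0 : ∀ x, μ {x} = 0) (m : ℕ) (hm : Odd m)
    (hφ : ∫ y, e (m * y) ∂μ ≠ 0) (c : ℝ) (hc : c < 1) :
    ¬ Summable fun N : ℕ => μ.real (dv μ m c N) := by
  intro hs
  have := h.prob
  have hp := profile_pr h
  have hφ0 : 0 < ‖∫ y, e (m * y) ∂μ‖ := norm_pos_iff.2 hφ
  -- large scales
  have h1 : Tendsto (fun N : ℕ => Real.pi * m * (3 / 4 : ℝ) ^ N) atTop (nhds 0) := by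
    have := (tendsto_pow_atTop_nhds_zero_of_lt_one (by norm_num : (0 : ℝ) ≤ 3 / 4)
      (by norm_num)).const_mul (Real.pi * m)
    simpa using this
  have h2 : ∀ᶠ N : ℕ in atTop, Real.pi * m * (3 / 4 : ℝ) ^ N <
      2 * (1 - c) * ‖∫ y, e (m * y) ∂μ‖ :=
    h1.eventually_lt_const (by nlinarith)
  have h3 : ∀ᶠ N : ℕ in atTop, ∑' k : ℕ, μ.real (dv μ m c (k + N)) < 1 / 8 :=
    (tendsto_sum_nat_add fun N => μ.real (dv μ m c N)).eventually_lt_const (by norm_num)
  obtain ⟨N₁, hN₁⟩ := (h2.and h3).exists_forall_of_atTop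
  have hstep : ∀ N, N₁ ≤ N → ∀ t : ℝ, Sm (pr μ) t (4 ^ (N + 1)) ≤
      Sm (pr μ) t (4 ^ N) + 2 * μ.real (dv μ m c N) := by
    intro N hN t
    have hb := (hN₁ N hN).1.le
    have h4 : (1 : ℕ) ≤ 4 ^ N := Nat.one_le_pow _ _ (by norm_num)
    have ov1 := ov_le h m N (4 ^ N) hm h4 c (by
      refine le_trans (le_of_eq ?_) hb
      rw [div_pow]; push_cast; ring)
    have ov2 := ov_le h m N (4 ^ N * 2) hm (by omega) c (by
      refine le_trans ?_ hb
      rw [div_pow]; push_cast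
      have : Real.pi * m * 3 ^ N / (4 ^ N * 2) = (Real.pi * m * (3 ^ N / 4 ^ N)) / 2 := by ring
      rw [this]
      have h5 : 0 ≤ Real.pi * m * (3 ^ N / 4 ^ N) := by positivity
      linarith)
    have s1 := Sm_step hp (4 ^ N) h4 t
    have s2 := Sm_step hp (4 ^ N * 2) (by omega) t
    have e1 : (4 : ℕ) ^ (N + 1) = 4 ^ N * 2 * 2 := by rw [pow_succ]; ring
    rw [e1]
    linarith
  -- summation
  have hsum : ∀ n : ℕ, ∀ t : ℝ, Sm (pr μ) t (4 ^ (N₁ + n)) ≤ Sm (pr μ) t (4 ^ N₁) +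
      2 * ∑ k ∈ range n, μ.real (dv μ m c (k + N₁)) := by
    intro n t
    induction n with
    | zero => simp
    | succ n ih =>
      rw [Finset.sum_range_succ, ← add_assoc N₁ n 1]
      have := hstep (N₁ + n) (by omega) t
      rw [add_comm n N₁]
      linarith
  have hsN := (summable_nat_add_iff N₁).2 hs
  have htail : ∀ n : ℕ, ∑ k ∈ range n, μ.real (dv μ m c (k + N₁)) ≤ 1 / 8 := fun n =>
    (hsN.sum_le_tsum _ fun _ _ => measureReal_nonneg).trans (hN₁ N₁ le_rfl).2.le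
  -- choice of the level
  set t : ℝ := 1 / (4 * ((4 ^ N₁ : ℕ) : ℝ)) with ht
  have ht0 : 0 < t := by positivity
  obtain ⟨N, hN, hsm⟩ := exists_small h h0 t ht0 N₁
  obtain ⟨n, rfl⟩ := Nat.exists_eq_add_of_le hN
  have h5 : Sm (pr μ) t (4 ^ (N₁ + n)) = 1 := by
    unfold Sm
    rw [← hp.sum_eq_one (4 ^ (N₁ + n)) (Nat.one_le_pow _ _ (by norm_num))]
    exact Finset.sum_congr rfl fun a ha => min_eq_left (hsm a (Finset.mem_range.1 ha))
  have h6 : Sm (pr μ) t (4 ^ N₁) ≤ 1 / 4 := by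
    unfold Sm
    calc ∑ a ∈ range (4 ^ N₁), min (pr μ (4 ^ N₁) a) t ≤ ∑ _a ∈ range (4 ^ N₁), t :=
          Finset.sum_le_sum fun _ _ => min_le_right _ _
      _ = 1 / 4 := by
          rw [Finset.sum_const, Finset.card_range, nsmul_eq_mul, ht]
          field_simp
  have h7 := hsum n t
  linarith [htail n]

lemma avg_two_pow (v m N : ℕ) (x : ℝ) :
    avg 1 N (fun y => e ((2 ^ v * m : ℕ) * y)) x =
      avg 1 N (fun y => e (m * y)) (Int.fract (2 ^ v * x)) := by
  rw [avg_fract]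
  unfold avg
  simp only [Finset.range_one, Finset.sum_singleton, pow_zero, one_mul]
  congr 1
  refine Finset.sum_congr rfl fun k _ => ?_
  congr 1
  push_cast
  ring

lemma e_fract (m : ℕ) (y : ℝ) : e (m * Int.fract y) = e (m * y) := by
  have h1 : (m : ℝ) * y = m * Int.fract y + ((m * ⌊y⌋ : ℤ) : ℝ) := by
    have := Int.floor_add_fract y
    push_cast
    rw [← mul_add, add_comm, this]
  rw [h1, e_add, e_int, mul_one]

lemma integral_two_pow {μ : Measure ℝ} (h : Inv23 μ) (v m : ℕ) :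
    ∫ y, e ((2 ^ v * m : ℕ) * y) ∂μ = ∫ y, e (m * y) ∂μ := by
  have h1 := preserving_two_pow h v
  have h2 : AEStronglyMeasurable (fun y : ℝ => e (m * y)) μ := by
    refine Continuous.aestronglyMeasurable ?_
    exact continuous_e.comp (continuous_const.mul continuous_id)
  have h3 := MeasureTheory.integral_map (μ := μ) h1.measurable.aemeasurable
    (f := fun y : ℝ => e (m * y)) (by rw [h1.map_eq]; exact h2)
  rw [h1.map_eq] at h3
  rw [h3]
  refine integral_congr_ae (Eventually.of_forall fun y => ?_)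
  show e ((2 ^ v * m : ℕ) * y) = e (m * Int.fract (2 ^ v * y))
  rw [e_fract]
  congr 1
  push_cast
  ring

/-- **Single character version.** -/
theorem not_summable {μ : Measure ℝ} (h : Inv23 μ) (h0 : ∀ x, μ {x} = 0) (m : ℕ) (hm : 1 ≤ m)
    (hφ : ∫ y, e (m * y) ∂μ ≠ 0) (c : ℝ) (hc : c < 1) :
    ¬ Summable fun N : ℕ => μ.real (dv μ m c N) := by
  have := h.prob
  obtain ⟨v, m', hm', rfl⟩ := Nat.exists_eq_two_pow_mul_odd (n := m) (by omega)
  rw [integral_two_pow h] at hφ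
  have h1 : ∀ N : ℕ, μ.real (dv μ (2 ^ v * m') c N) = μ.real (dv μ m' c N) := by
    intro N
    have h2 := (preserving_two_pow h v).measureReal_preimage
      (measurableSet_dv μ m' c N).nullMeasurableSet
    rw [← h2]
    congr 1
    ext x
    simp only [dv, Set.mem_preimage, Set.mem_ofPred_eq]
    rw [integral_two_pow h, avg_two_pow]
  simp only [h1]
  exact not_summable_odd h h0 m' hm' hφ c hc

end Helper75.FR1
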