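import Mathlib
import Pool.Agent.Helper61.FR.Circle
import Pool.Agent.Helper75.FR1.Single

/-!
# The single character version of rate rigidity on the circle
-/

set_option autoImplicit false

open MeasureTheory Finset Filter

namespace Helper75.FR1

open Pool.Agent.Helper61.FR

lemma real_dv_eq {ν : Measure (AddCircle (1 : ℝ))} {μ : Measure ℝ}
    (hν : μ.map (fun y : ℝ => (y : AddCircle (1 : ℝ))) = ν) (m : ℕ) (c : ℝ) (N : ℕ) :
    ν.real {x | c * ‖∫ y, (fourier m y : ℂ) ∂ν‖ ≤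
      ‖cavg 1 N m x - ∫ y, (fourier m y : ℂ) ∂ν‖} = μ.real (dv μ m c N) := by
  have h2 := integral_fourier_eq hν (m : ℤ)
  have h1 : MeasurableSet {x | c * ‖∫ y, (fourier m y : ℂ) ∂ν‖ ≤
      ‖cavg 1 N m x - ∫ y, (fourier m y : ℂ) ∂ν‖} :=
    measurableSet_le measurable_const ((continuous_cavg 1 N m).measurable.sub_const _).norm
  rw [measureReal_def, measureReal_def]
  conv_lhs => rw [← hν]
  rw [Measure.map_apply measurable_coe_circle (by rw [hν]; exact h1)]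
  congr 2
  ext y
  show (c * ‖_‖ ≤ ‖cavg 1 N m (y : AddCircle (1 : ℝ)) - _‖) ↔ (c * ‖_‖ ≤ ‖_ - _‖)
  rw [hν, cavg_coe, h2]
  rfl

/-- **Single character rate rigidity on the circle.** -/
theorem circle_single {ν : Measure (AddCircle (1 : ℝ))} [IsProbabilityMeasure ν]
    (h2 : MeasurePreserving (fun x : AddCircle (1 : ℝ) => (2 : ℕ) • x) ν ν)
    (h3 : MeasurePreserving (fun x : AddCircle (1 : ℝ) => (3 : ℕ) • x) ν ν)
    (h0 : ∀ x, ν {x} = 0) (m : ℕ) (hm : 1 ≤ m)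
    (hφ : ∫ y, (fourier m y : ℂ) ∂ν ≠ 0) (c : ℝ) (hc : c < 1) :
    ¬ Summable fun N : ℕ => ν.real {x | c * ‖∫ y, (fourier m y : ℂ) ∂ν‖ ≤
      ‖cavg 1 N m x - ∫ y, (fourier m y : ℂ) ∂ν‖} := by
  obtain ⟨μ, hμ, hν, hat⟩ := exists_inv23 ν h2 h3
  have h4 : ∫ y, (fourier m y : ℂ) ∂ν = ∫ y, e (m * y) ∂μ := by
    have h5 := integral_fourier_eq hν (m : ℤ)
    rw [h5]
    unfold cf
    push_cast
    rfl
  have h6 := not_summable hμ (hat h0) m hm (by rw [← h4]; exact hφ) c hc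
  intro hs
  apply h6
  refine hs.congr fun N => ?_
  exact real_dv_eq hν m c N

/-- Moment version: for every `p > 0` the `p`-th moments of the deviations are not summable. -/
theorem circle_single_moment {ν : Measure (AddCircle (1 : ℝ))} [IsProbabilityMeasure ν]
    (h2 : MeasurePreserving (fun x : AddCircle (1 : ℝ) => (2 : ℕ) • x) ν ν)
    (h3 : MeasurePreserving (fun x : AddCircle (1 : ℝ) => (3 : ℕ) • x) ν ν)
    (h0 : ∀ x, ν {x} = 0) (m : ℕ) (hm : 1 ≤ m)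
    (hφ : ∫ y, (fourier m y : ℂ) ∂ν ≠ 0) (p : ℝ) (hp : 0 < p) :
    ¬ Summable fun N : ℕ => ∫ x, ‖cavg 1 N m x - ∫ y, (fourier m y : ℂ) ∂ν‖ ^ p ∂ν := by
  intro hs
  apply circle_single h2 h3 h0 m hm hφ (1 / 2) (by norm_num)
  set φ := ∫ y, (fourier m y : ℂ) ∂ν with hφd
  have hφ0 : 0 < ‖φ‖ := norm_pos_iff.2 hφ
  set η : ℝ := 1 / 2 * ‖φ‖ with hη
  have hη0 : 0 < η := by positivity
  have hηp : 0 < η ^ p := Real.rpow_pos_of_pos hη0 p
  refine Summable.of_nonneg_of_le (fun N => measureReal_nonneg) (fun N => ?_)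
    (hs.mul_left (1 / η ^ p))
  have hint : Integrable (fun x => ‖cavg 1 N m x - φ‖ ^ p) ν := by
    refine Helper17.TranslM.integrable_cont ν ?_
    exact ((continuous_cavg _ _ _).sub continuous_const).norm.rpow_const (fun x => Or.inr hp.le)
  have h1 := mul_meas_ge_le_integral_of_nonneg
    (Eventually.of_forall fun x => by positivity) hint (η ^ p)
  have h4 : ν.real {x | η ≤ ‖cavg 1 N m x - φ‖} ≤
      ν.real {x | η ^ p ≤ ‖cavg 1 N m x - φ‖ ^ p} := by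
    refine measureReal_mono ?_
    intro x hx
    exact Real.rpow_le_rpow hη0.le hx hp.le
  have h5 : (1 / η ^ p) * (η ^ p * ν.real {x | η ^ p ≤ ‖cavg 1 N m x - φ‖ ^ p}) =
      ν.real {x | η ^ p ≤ ‖cavg 1 N m x - φ‖ ^ p} := by
    field_simp
  calc ν.real {x | η ≤ ‖cavg 1 N m x - φ‖}
      ≤ ν.real {x | η ^ p ≤ ‖cavg 1 N m x - φ‖ ^ p} := h4
    _ = (1 / η ^ p) * (η ^ p * ν.real {x | η ^ p ≤ ‖cavg 1 N m x - φ‖ ^ p}) := h5.symm
    _ ≤ (1 / η ^ p) * ∫ x, ‖cavg 1 N m x - φ‖ ^ p ∂ν := by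
        apply mul_le_mul_of_nonneg_left h1 (by positivity)

end Helper75.FR1
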